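import Pool.Agent.L0h71.OE.Dual

/-!
# OE: the count (helper71)
-/

universe u v

open CategoryTheory

set_option autoImplicit false

namespace Pool.Agent.L0h14.OE

open Pool.Agent.N174.OC Pool.Agent.L0h14.ORN Pool.Agent.Y107

lemma cnt_aux (a b : ℤ → ℕ) (lo c L U : ℤ) (hlow : ∀ i, i ≤ lo → a i = b i)
    (ha : ∀ i, a i = a (c - i)) (hb : ∀ i, b i = b (c - i)) (hc : c ≤ 2 * lo + 3)
    (hL : L ≤ lo + 1) (hU : c - lo - 1 ≤ U)
    (hs : ∑ i ∈ Finset.Icc L U, a i = ∑ i ∈ Finset.Icc L U, b i) : ∀ i, a i = b i := by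
  intro i
  by_contra hi
  have h1 : lo + 1 ≤ i := by
    by_contra h
    exact hi (hlow i (by omega))
  have h2 : lo + 1 ≤ c - i := by
    by_contra h
    apply hi
    rw [ha, hb]
    exact hlow _ (by omega)
  have h3 : ∀ j, j ≠ i → j ≠ c - i → a j = b j := by
    intro j hj hj'
    by_contra hne
    have h4 : lo + 1 ≤ j := by
      by_contra h
      exact hne (hlow j (by omega))
    have h5 : lo + 1 ≤ c - j := by
      by_contra h
      apply hne
      rw [ha, hb]
      exact hlow _ (by omega)
    omega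
  have h4 : ∑ j ∈ Finset.Icc L U, ((a j : ℤ) - b j) = 0 := by
    rw [Finset.sum_sub_distrib, sub_eq_zero]
    exact_mod_cast hs
  have hsub : ({i, c - i} : Finset ℤ) ⊆ Finset.Icc L U := by
    intro x hx
    rw [Finset.mem_insert, Finset.mem_singleton] at hx
    rw [Finset.mem_Icc]
    rcases hx with rfl | rfl <;> omega
  rw [← Finset.sum_subset hsub (fun j _ hj => by
    rw [Finset.mem_insert, Finset.mem_singleton, not_or] at hj
    rw [h3 j hj.1 hj.2, sub_self])] at h4
  have h5 := ha i
  have h6 := hb i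
  by_cases h : i = c - i
  · rw [← h, Finset.insert_eq_of_mem (Finset.mem_singleton_self i), Finset.sum_singleton] at h4
    apply hi
    omega
  · rw [Finset.sum_pair h] at h4
    apply hi
    omega

theorem t_Cnt (hTot : S_Tot.{u, v}) (hTotIso : S_TotIso.{u, v}) (hDual : S_Dual.{u, v})
    (hLow : S_LowEq.{u, v}) (hCong : S_Cong.{u, v}) (hClass : S_Class.{u, v}) : S_Cnt.{u, v} := by
  intro 𝒱 _ _ _ T m X Y hXY hX hiso hvw C hC p hp
  obtain ⟨v, w, hvw1, hvw2⟩ := hvw
  rcases hClass T C hC p hp with ⟨s, hs⟩ | ⟨hC1, hs⟩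
  · -- Tate twists
    have key : ∀ j : ℤ, T.toTraceTheory.D (T.toTraceTheory.one T.pt) X j =
        T.toTraceTheory.D (T.toTraceTheory.one T.pt) Y j := by
      have h0 := T.dim_pt
      have hd : ∀ (X : 𝒱) (j : ℤ), T.toTraceTheory.D (T.toTraceTheory.one T.pt) X j =
          T.toTraceTheory.D (T.toTraceTheory.one T.pt) X (T.dim X - j) := by
        intro X j
        have h := hDual T.toTraceTheory T.pt X (T.toTraceTheory.one T.pt)
          (T.toTraceTheory.one_mem T.pt) (T.toTraceTheory.one_nc _) j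
        rw [TraceTheory.tN_one, h0, Nat.cast_zero, sub_zero] at h
        exact h
      refine cnt_aux _ _ m (T.dim X) 0 (T.dim X) ?_ (hd X) ?_ (by omega) (by omega) (by omega) ?_
      · intro i hi
        exact hLow T.toTraceTheory m T.pt X Y hiso (by rw [h0]; omega) _ i (by rw [h0]; simpa using hi)
      · intro i
        rw [hXY]
        exact hd Y i
      · have h1 := hTot T.toTraceTheory T.pt X _ (T.toTraceTheory.one_mem T.pt)
        have h2 := hTot T.toTraceTheory T.pt Y _ (T.toTraceTheory.one_mem T.pt)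
        have h3 := hTotIso T.toTraceTheory T.pt X Y (T.toTraceTheory.one T.pt) v w hvw1 hvw2
        rw [h1, h2, h0, Nat.cast_zero, neg_zero, ← hXY] at h3
        exact h3
    intro i
    rw [hCong T.toTraceTheory C T.pt X p _ s hs i, hCong T.toTraceTheory C T.pt Y p _ s hs i]
    exact key _
  · -- self-dual motives of curves
    obtain ⟨hp1, hp2, -, -⟩ := hp
    have hd : ∀ (X : 𝒱) (j : ℤ), T.toTraceTheory.D p X j =
        T.toTraceTheory.D p X (T.dim X - 1 - j) := by
      intro X j
      have h := hDual T.toTraceTheory C X p hp1 hp2 j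
      have h' := hCong T.toTraceTheory C C X p _ 0 hs (T.dim X - 1 - j)
      rw [sub_zero] at h'
      rw [h, h', hC1, Nat.cast_one]
    refine cnt_aux _ _ (m - 1) (T.dim X - 1) (-1) (T.dim X) ?_ (hd X) ?_ (by omega) (by omega) (by omega) ?_
    · intro i hi
      exact hLow T.toTraceTheory m C X Y hiso hC _ i (by rw [hC1]; push_cast; omega)
    · intro i
      rw [hXY]
      exact hd Y i
    · have h1 := hTot T.toTraceTheory C X _ hp1
      have h2 := hTot T.toTraceTheory C Y _ hp1
      have h3 := hTotIso T.toTraceTheory C X Y p v w hvw1 hvw2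
      rw [h1, h2, hC1, Nat.cast_one, ← hXY] at h3
      exact h3

end Pool.Agent.L0h14.OE
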