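import Pool.Agent.L0h71.OE.Tot

/-!
# OE: duality (helper71)
-/

universe u v

open CategoryTheory

set_option autoImplicit false

namespace Pool.Agent.L0h14.OE

open Pool.Agent.N174.OC Pool.Agent.L0h14.ORN Pool.Agent.Y107

namespace TraceTheory

variable {𝒱 : Type u} [Category.{v} 𝒱] [Preadditive 𝒱] [Linear ℚ 𝒱] (T : TraceTheory 𝒱)

/-- the trace modulo numerical equivalence -/
def trN (X : 𝒱) : T.NH X X →ₗ[ℚ] ℚ := (T.triv X X).liftQ (T.tr X) (fun a ha => by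
  rw [LinearMap.mem_ker]
  have h := ha (𝟙 X)
  rwa [Category.comp_id] at h)

lemma trN_cl {X : 𝒱} (f : X ⟶ X) : T.trN X (T.cl f) = T.tr X f := rfl

lemma trN_comm {X Y : 𝒱} (x : T.NH X Y) (y : T.NH Y X) : T.trN X (T.nc x y) = T.trN Y (T.nc y x) := by
  obtain ⟨f, rfl⟩ := T.cl_surj x
  obtain ⟨g, rfl⟩ := T.cl_surj y
  rw [nc_cl, nc_cl, trN_cl, trN_cl]
  exact T.tr_comm f g

lemma tN_nc {X Y Z : 𝒱} (x : T.NH X Y) (y : T.NH Y Z) : T.tN (T.nc x y) = T.nc (T.tN y) (T.tN x) := by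
  obtain ⟨f, rfl⟩ := T.cl_surj x
  obtain ⟨g, rfl⟩ := T.cl_surj y
  rw [nc_cl, tN_cl, tN_cl, tN_cl, nc_cl, T.tp_comp]

lemma tN_tN {X Y : 𝒱} (x : T.NH X Y) : T.tN (T.tN x) = x := by
  obtain ⟨f, rfl⟩ := T.cl_surj x
  rw [tN_cl, tN_cl, T.tp_tp]

lemma tN_one (X : 𝒱) : T.tN (T.one X) = T.one X := by
  rw [one, tN_cl, T.tp_id]

lemma tN_mem {X Y : 𝒱} {i : ℤ} {x : T.NH X Y} (hx : x ∈ T.gN X Y i) :
    T.tN x ∈ T.gN Y X (T.dim X + i - T.dim Y) := by
  obtain ⟨f, hf, rfl⟩ := hx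
  exact ⟨T.tp f, T.tp_mem hf, rfl⟩

/-- the maps `g : X ⟶ C` of degree `j` with `g ≫ p = g` -/
def CoFix {C : 𝒱} (p : T.NH C C) (X : 𝒱) (j : ℤ) : Submodule ℚ (T.NH X C) :=
  T.gN X C j ⊓ LinearMap.ker ((T.nc (X := X) (Y := C) (Z := C)).flip p - LinearMap.id)

lemma mem_CoFix {C : 𝒱} {p : T.NH C C} {X : 𝒱} {j : ℤ} {g : T.NH X C} :
    g ∈ T.CoFix p X j ↔ g ∈ T.gN X C j ∧ T.nc g p = g := by
  rw [CoFix, Submodule.mem_inf, LinearMap.mem_ker, LinearMap.sub_apply, LinearMap.id_apply, sub_eq_zero,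
    LinearMap.flip_apply]

/-- non-degeneracy -/
lemma nd_left {X Y : 𝒱} {i : ℤ} {x : T.NH X Y} (hx : x ∈ T.gN X Y i)
    (h : ∀ y ∈ T.gN Y X (-i), T.trN X (T.nc x y) = 0) : x = 0 := by
  obtain ⟨f, hf, rfl⟩ := hx
  change T.cl f = 0
  rw [cl_eq_zero]
  intro b
  rw [← T.tr_cmp_right hf b]
  exact h (T.cl (cmp (T.isInternal Y X) (-i) b)) ⟨_, cmp_mem _ _ b, rfl⟩

lemma nd_fix {C X : 𝒱} {i : ℤ} {p : T.NH C C} (hp : p ∈ T.gN C C 0) (hpp : T.nc p p = p)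
    {x : T.NH C X} (hx : x ∈ T.FixN p X i)
    (h : ∀ y ∈ T.CoFix p X (-i), T.trN C (T.nc x y) = 0) : x = 0 := by
  obtain ⟨h1, h2⟩ := T.mem_FixN.1 hx
  refine T.nd_left h1 fun y hy => ?_
  have h3 : T.nc y p ∈ T.CoFix p X (-i) := by
    rw [mem_CoFix]
    refine ⟨?_, ?_⟩
    · have := T.nc_mem hy hp
      rwa [add_zero] at this
    · rw [nc_assoc, hpp]
  have h4 := h _ h3
  rwa [← nc_assoc, T.trN_comm, ← nc_assoc, h2] at h4

lemma nd_cofix {C X : 𝒱} {i : ℤ} {p : T.NH C C} (hp : p ∈ T.gN C C 0) (hpp : T.nc p p = p)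
    {y : T.NH X C} (hy : y ∈ T.CoFix p X (-i))
    (h : ∀ x ∈ T.FixN p X i, T.trN C (T.nc x y) = 0) : y = 0 := by
  obtain ⟨h1, h2⟩ := T.mem_CoFix.1 hy
  refine T.nd_left h1 fun x hx => ?_
  rw [neg_neg] at hx
  have h3 : T.nc p x ∈ T.FixN p X i := by
    rw [mem_FixN]
    refine ⟨?_, ?_⟩
    · have := T.nc_mem hp hx
      rwa [zero_add] at this
    · rw [← nc_assoc, hpp]
  have h4 := h _ h3
  rw [nc_assoc, T.trN_comm, nc_assoc, h2, T.trN_comm] at h4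
  exact h4

end TraceTheory

theorem t_Dual : S_Dual.{u, v} := by
  intro 𝒱 _ _ _ T C X p hp hpp i
  -- the pairing
  let β : T.FixN p X i →ₗ[ℚ] T.CoFix p X (-i) →ₗ[ℚ] ℚ :=
    ((T.nc (X := C) (Y := X) (Z := C)).compr₂ (T.trN C)).domRestrict₁₂ (T.FixN p X i) (T.CoFix p X (-i))
  have hβ : ∀ x y, β x y = T.trN C (T.nc x.1 y.1) := fun _ _ => rfl
  have h1 : Function.Injective β := by
    rw [injective_iff_map_eq_zero]
    intro x hx
    refine Subtype.ext (T.nd_fix hp hpp x.2 fun y hy => ?_)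
    have := LinearMap.congr_fun hx ⟨y, hy⟩
    exact this
  have h2 : Function.Injective β.flip := by
    rw [injective_iff_map_eq_zero]
    intro y hy
    refine Subtype.ext (T.nd_cofix hp hpp y.2 fun x hx => ?_)
    have := LinearMap.congr_fun hy ⟨x, hx⟩
    exact this
  have e1 : Module.finrank ℚ (T.FixN p X i) = Module.finrank ℚ (T.CoFix p X (-i)) := by
    apply le_antisymm
    · have := LinearMap.finrank_le_finrank_of_injective h1
      rwa [Subspace.dual_finrank_eq] at this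
    · have := LinearMap.finrank_le_finrank_of_injective h2
      rwa [Subspace.dual_finrank_eq] at this
  -- the transpose
  let e : T.CoFix p X (-i) ≃ₗ[ℚ] T.FixN (T.tN p) X (T.dim X - T.dim C - i) :=
    { toFun := fun g => ⟨T.tN g.1, T.mem_FixN.2 ⟨by
        have := T.tN_mem (T.mem_CoFix.1 g.2).1
        rwa [show (T.dim X : ℤ) + -i - T.dim C = T.dim X - T.dim C - i by ring] at this, by
        rw [← T.tN_nc, (T.mem_CoFix.1 g.2).2]⟩⟩
      map_add' := fun x y => Subtype.ext (map_add T.tN x.1 y.1)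
      map_smul' := fun c x => Subtype.ext (map_smul T.tN c x.1)
      invFun := fun h => ⟨T.tN h.1, T.mem_CoFix.2 ⟨by
        have := T.tN_mem (T.mem_FixN.1 h.2).1
        rwa [show (T.dim C : ℤ) + (T.dim X - T.dim C - i) - T.dim X = -i by ring] at this, by
        have := congrArg T.tN (T.mem_FixN.1 h.2).2
        rwa [T.tN_nc, T.tN_tN] at this⟩⟩
      left_inv := fun g => Subtype.ext (T.tN_tN g.1)
      right_inv := fun h => Subtype.ext (T.tN_tN h.1) }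
  show Module.finrank ℚ (T.FixN p X i) = _
  rw [e1, LinearEquiv.finrank_eq e]
  rfl

end Pool.Agent.L0h14.OE
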