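import Pool.Agent.L0h14.OE.Stm

/-!
# OE: homogeneity of numerical equivalence, the total dimension, duality (helper71)
-/

universe u v

open CategoryTheory

set_option autoImplicit false

namespace Pool.Agent.L0h14.OE

open Pool.Agent.N174.OC Pool.Agent.L0h14.ORN Pool.Agent.Y107

namespace TraceTheory

variable {𝒱 : Type u} [Category.{v} 𝒱] [Preadditive 𝒱] [Linear ℚ 𝒱] (T : TraceTheory 𝒱)

lemma pow_mem {X : 𝒱} {i : ℤ} {a : X ⟶ X} (ha : a ∈ T.gr X X i) (n : ℕ) :
    ((show End X from a) ^ n : End X) ∈ T.gr X X (n * i) := by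
  induction n with
  | zero =>
    rw [pow_zero, Nat.cast_zero, zero_mul]
    exact T.id_mem X
  | succ n ih =>
    rw [pow_succ']
    have h := T.comp_mem ih ha
    have e : (n : ℤ) * i + i = ((n + 1 : ℕ) : ℤ) * i := by
      push_cast
      ring
    rw [e] at h
    exact h

lemma gr_nil {X : 𝒱} {i : ℤ} (hi : i ≠ 0) {a : X ⟶ X} (ha : a ∈ T.gr X X i) :
    IsNilpotent (show End X from a) := by
  refine ⟨T.dim X + 1, ?_⟩
  have h := T.pow_mem ha (T.dim X + 1)
  rcases lt_or_gt_of_ne hi with h1 | h1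
  · rw [T.negative X X _ (by push_cast; nlinarith)] at h
    exact (Submodule.mem_bot ℚ).1 h
  · rw [T.top X X _ (by push_cast; nlinarith)] at h
    exact (Submodule.mem_bot ℚ).1 h

lemma tr_nil {X : 𝒱} {a : X ⟶ X} (ha : IsNilpotent (show End X from a)) : T.tr X a = 0 := by
  obtain ⟨K, _, _, m, n, ρ, σ, h⟩ := T.lefschetz X
  have h1 : (ρ a).trace = 0 := (Matrix.isNilpotent_trace_of_isNilpotent (ha.map ρ)).eq_zero
  have h2 : (σ a).trace = 0 := (Matrix.isNilpotent_trace_of_isNilpotent (ha.map σ)).eq_zero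
  have h3 := h a
  rw [h1, h2, sub_zero] at h3
  exact_mod_cast h3

/-- the trace of a correspondence of degree `i ≠ 0` is zero -/
lemma tr_deg {X : 𝒱} {i : ℤ} (hi : i ≠ 0) {a : X ⟶ X} (ha : a ∈ T.gr X X i) : T.tr X a = 0 :=
  T.tr_nil (T.gr_nil hi ha)

lemma mem_sup {X Y : 𝒱} (x : X ⟶ Y) : x ∈ ⨆ i, T.gr X Y i := by
  rw [(T.isInternal X Y).submodule_iSup_eq_top]
  trivial

/-- only the component of degree `i` counts -/
lemma tr_cmp_left {X Y : 𝒱} {i : ℤ} (x : X ⟶ Y) {b : Y ⟶ X} (hb : b ∈ T.gr Y X (-i)) :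
    T.tr X (cmp (T.isInternal X Y) i x ≫ b) = T.tr X (x ≫ b) := by
  have hx := T.mem_sup x
  induction hx using Submodule.iSup_induction' with
  | mem j x hx =>
    by_cases h : j = i
    · subst h
      rw [cmp_of_mem _ hx]
    · rw [cmp_of_ne _ hx h, Limits.zero_comp, map_zero]
      exact (T.tr_deg (i := j + -i) (by omega) (T.comp_mem hx hb)).symm
  | zero => simp
  | add x y _ _ h1 h2 => simp only [map_add, Preadditive.add_comp, h1, h2]

lemma tr_cmp_right {X Y : 𝒱} {i : ℤ} {x : X ⟶ Y} (hx : x ∈ T.gr X Y i) (b : Y ⟶ X) :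
    T.tr X (x ≫ cmp (T.isInternal Y X) (-i) b) = T.tr X (x ≫ b) := by
  rw [T.tr_comm x, T.tr_comm x]
  exact T.tr_cmp_left b (by rwa [neg_neg])

lemma cmp_triv {X Y : 𝒱} {a : X ⟶ Y} (ha : a ∈ T.triv X Y) (i : ℤ) :
    cmp (T.isInternal X Y) i a ∈ T.triv X Y := by
  intro b
  rw [← T.tr_cmp_right (cmp_mem _ i a) b, T.tr_cmp_left a (cmp_mem _ (-i) b)]
  exact ha _

/-- the components modulo numerical equivalence -/
noncomputable def cN {X Y : 𝒱} (i : ℤ) : T.NH X Y →ₗ[ℚ] T.NH X Y :=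
  (T.triv X Y).mapQ (T.triv X Y) (cmp (T.isInternal X Y) i) (fun _ h => T.cmp_triv h i)

lemma cN_cl {X Y : 𝒱} (i : ℤ) (f : X ⟶ Y) : T.cN i (T.cl f) = T.cl (cmp (T.isInternal X Y) i f) := rfl

lemma cN_mem {X Y : 𝒱} (i : ℤ) (x : T.NH X Y) : T.cN i x ∈ T.gN X Y i := by
  obtain ⟨f, rfl⟩ := T.cl_surj x
  exact ⟨_, cmp_mem _ i f, rfl⟩

lemma cN_of_mem {X Y : 𝒱} {i : ℤ} {x : T.NH X Y} (hx : x ∈ T.gN X Y i) : T.cN i x = x := by
  obtain ⟨f, hf, rfl⟩ := hx
  show T.cN i (T.cl f) = T.cl f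
  rw [cN_cl, cmp_of_mem _ hf]

lemma cN_of_ne {X Y : 𝒱} {i j : ℤ} {x : T.NH X Y} (hx : x ∈ T.gN X Y i) (h : i ≠ j) :
    T.cN j x = 0 := by
  obtain ⟨f, hf, rfl⟩ := hx
  show T.cN j (T.cl f) = 0
  rw [cN_cl, cmp_of_ne _ hf h, map_zero]

lemma sum_cmp {X Y : 𝒱} (x : X ⟶ Y) :
    ∑ i ∈ Finset.Icc (-(T.dim X : ℤ)) (T.dim Y), cmp (T.isInternal X Y) i x = x := by
  have hx := T.mem_sup x
  induction hx using Submodule.iSup_induction' with
  | mem j x hx =>
    by_cases h : j ∈ Finset.Icc (-(T.dim X : ℤ)) (T.dim Y)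
    · rw [Finset.sum_eq_single j]
      · exact cmp_of_mem _ hx
      · intro i _ hij
        exact cmp_of_ne _ hx hij.symm
      · intro h'
        exact absurd h h'
    · have h0 : x = 0 := by
        rw [Finset.mem_Icc, not_and_or, not_le, not_le] at h
        rcases h with h | h
        · rw [T.negative X Y _ h] at hx
          exact (Submodule.mem_bot ℚ).1 hx
        · rw [T.top X Y _ h] at hx
          exact (Submodule.mem_bot ℚ).1 hx
      subst h0
      simp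
  | zero => simp
  | add x y _ _ h1 h2 => simp only [map_add, Finset.sum_add_distrib, h1, h2]

lemma sum_cN {X Y : 𝒱} (x : T.NH X Y) :
    ∑ i ∈ Finset.Icc (-(T.dim X : ℤ)) (T.dim Y), T.cN i x = x := by
  obtain ⟨f, rfl⟩ := T.cl_surj x
  conv_rhs => rw [← T.sum_cmp f, map_sum]
  rfl

lemma nc_cN {C X : 𝒱} {p : T.NH C C} (hp : p ∈ T.gN C C 0) (i : ℤ) (x : T.NH C X) :
    T.nc p (T.cN i x) = T.cN i (T.nc p x) := by
  obtain ⟨f, hf, rfl⟩ := hp
  obtain ⟨g, rfl⟩ := T.cl_surj x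
  show T.nc (T.cl f) (T.cN i (T.cl g)) = T.cN i (T.nc (T.cl f) (T.cl g))
  rw [cN_cl, nc_cl, nc_cl, cN_cl]
  have h := cmp_map (T.isInternal C X) (lc f X) 0 (fun j y hy => by
    have := T.comp_mem hf hy
    rwa [zero_add, ← add_zero j] at this) i g
  rw [add_zero] at h
  rw [show f ≫ cmp (T.isInternal C X) i g = cmp (T.isInternal C X) i (f ≫ g) from h.symm]

instance fin_NH (X Y : 𝒱) : FiniteDimensional ℚ (T.NH X Y) := by
  obtain ⟨n, φ, hφ⟩ := T.finiteHom X Y
  have h1 : LinearMap.ker φ ≤ T.triv X Y := fun a ha => hφ a (LinearMap.mem_ker.1 ha)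
  have h2 : FiniteDimensional ℚ ((X ⟶ Y) ⧸ LinearMap.ker φ) :=
    Module.Finite.equiv φ.quotKerEquivRange.symm
  refine Module.Finite.of_surjective ((LinearMap.ker φ).mapQ (T.triv X Y) LinearMap.id h1) ?_
  intro x
  obtain ⟨f, rfl⟩ := T.cl_surj x
  exact ⟨Submodule.Quotient.mk f, rfl⟩

end TraceTheory

theorem t_Tot : S_Tot.{u, v} := by
  intro 𝒱 _ _ _ T C X p hp
  set I := Finset.Icc (-(T.dim C : ℤ)) (T.dim X) with hI
  let e : T.FixT p X ≃ₗ[ℚ] ((i : I) → T.FixN p X i) :=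
    { toFun := fun x i => ⟨T.cN i x.1, T.mem_FixN.2 ⟨T.cN_mem i x.1, by
        rw [T.nc_cN hp, T.mem_FixT.1 x.2]⟩⟩
      map_add' := fun x y => by
        funext i
        exact Subtype.ext (map_add (T.cN (i : ℤ)) x.1 y.1)
      map_smul' := fun c x => by
        funext i
        exact Subtype.ext (map_smul (T.cN (i : ℤ)) c x.1)
      invFun := fun y => ⟨∑ i : I, (y i).1, T.mem_FixT.2 (by
        rw [map_sum]
        exact Finset.sum_congr rfl fun i _ => (T.mem_FixN.1 (y i).2).2)⟩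
      left_inv := fun x => Subtype.ext (by
        show ∑ i : I, T.cN (i : ℤ) x.1 = x.1
        rw [Finset.sum_coe_sort I (fun i => T.cN i x.1)]
        exact T.sum_cN x.1)
      right_inv := fun y => by
        funext i
        refine Subtype.ext ?_
        show T.cN (i : ℤ) (∑ j : I, (y j).1) = (y i).1
        rw [map_sum, Finset.sum_eq_single i]
        · exact T.cN_of_mem (T.mem_FixN.1 (y i).2).1
        · intro j _ hj
          exact T.cN_of_ne (T.mem_FixN.1 (y j).2).1 (fun h => hj (Subtype.ext h))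
        · intro h
          exact absurd (Finset.mem_univ i) h }
  rw [LinearEquiv.finrank_eq e, Module.finrank_pi_fintype]
  exact Finset.sum_coe_sort I (fun i => T.D p X i)

end Pool.Agent.L0h14.OE
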